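import Pool.Agent.SS.BKVal

/-!
# `ζ(3)` and the modified Bessel functions

`I₀`, `I₁` are the modified Bessel functions of the first kind, `K₀ x = ∫_0^∞ e^{-x cosh t} dt` is the
modified Bessel function of the second kind and `κ x = ∫_x^∞ K₀(t)² dt / t`.
-/

namespace Pool.Agent.Results.MP_48b3e2_nt.BesselSquare

open MeasureTheory Set

/-- the modified Bessel function `I₀ x = ∑ (x/2)^{2n} / n!²` -/
noncomputable def I₀ (x : ℝ) : ℝ := ∑' n : ℕ, (x / 2) ^ (2 * n) / (n.factorial : ℝ) ^ 2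

/-- the modified Bessel function `I₁ x = ∑ (x/2)^{2n+1} / (n! (n+1)!)` -/
noncomputable def I₁ (x : ℝ) : ℝ :=
  ∑' n : ℕ, (x / 2) ^ (2 * n + 1) / ((n.factorial : ℝ) * (n + 1).factorial)

/-- the modified Bessel function of the second kind `K₀ x = ∫_0^∞ e^{-x cosh t} dt` -/
noncomputable def K₀ (x : ℝ) : ℝ := ∫ t in Ioi (0 : ℝ), Real.exp (-(x * Real.cosh t))

/-- `κ x = ∫_x^∞ K₀(t)² dt / t` -/
noncomputable def κ (x : ℝ) : ℝ := ∫ t in Ioi x, K₀ t ^ 2 / t

/-- the number `ζ(3)` -/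
noncomputable def ζ₃ : ℝ := ∑' n : ℕ, (1 : ℝ) / ((n : ℝ) + 1) ^ 3

/-- Let `x > 0` be a real number with `x²` rational.  Then the field generated over `ℚ` by the six
numbers `I₀ x`, `I₁ x`, `ζ(3)`, `γ + log (x / 2)`, `K₀ x`, `κ x` has transcendence degree at least
`4`, the field generated by the last four has transcendence degree at least `2`, at least one of
`ζ(3)`, `K₀ x`, `κ x` is transcendental, and at least one of `ζ(3)`, `γ + log (x / 2)`, `κ x` is
transcendental.  For `x = 2` the last assertion says that one of `ζ(3)`, `γ`, `κ 2` is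
transcendental. -/
theorem result :
    (∀ (x : ℝ) (r : ℚ), 0 < x → x ^ 2 = r →
      ((4 : ℕ) : Cardinal) ≤ Algebra.trdeg ℚ (IntermediateField.adjoin ℚ
        ({I₀ x, I₁ x, ζ₃, Real.eulerMascheroniConstant + Real.log (x / 2), K₀ x, κ x} : Set ℝ)) ∧
      ((2 : ℕ) : Cardinal) ≤ Algebra.trdeg ℚ (IntermediateField.adjoin ℚ
        ({ζ₃, Real.eulerMascheroniConstant + Real.log (x / 2), K₀ x, κ x} : Set ℝ)) ∧
      (Transcendental ℚ ζ₃ ∨ Transcendental ℚ (K₀ x) ∨ Transcendental ℚ (κ x)) ∧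
      (Transcendental ℚ ζ₃ ∨ Transcendental ℚ (Real.eulerMascheroniConstant + Real.log (x / 2)) ∨
        Transcendental ℚ (κ x))) ∧
    (Transcendental ℚ ζ₃ ∨ Transcendental ℚ Real.eulerMascheroniConstant ∨
      Transcendental ℚ (κ 2)) := by
  refine ⟨fun x r hx hr => ⟨Pool.Agent.SS.trdeg_bessel hx hr, Pool.Agent.SS.trdeg_bessel_four hx hr,
    Pool.Agent.SS.three_a hx hr, Pool.Agent.SS.three_b hx hr⟩, ?_⟩
  have h := Pool.Agent.SS.three_b (x := 2) (r := 4) two_pos (by norm_num)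
  rw [div_self (two_ne_zero), Real.log_one, add_zero] at h
  exact h

end Pool.Agent.Results.MP_48b3e2_nt.BesselSquare
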